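import Pool.Agent.Helper9.UP.StN

/-!
# MP_d466de_nt, project UP, module DG: primes of higher degree and higher powers
-/

set_option autoImplicit false
set_option linter.deprecated false

noncomputable section

namespace Pool.Agent.Helper57.UP

open Pool.Agent.Helper9.UP
open Finset Polynomial NumberField Module

/-- geometric sums -/
theorem geo_DG (x : ℝ) (hx : 0 ≤ x) (hx2 : x ≤ 1 / 2) (a : ℕ) :
    ∀ n : ℕ, ∑ k ∈ Ico a (a + n), x ^ k ≤ 2 * x ^ a - 2 * x ^ (a + n) := by
  intro n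
  induction n with
  | zero => simp
  | succ n ih =>
    rw [← add_assoc, Finset.sum_Ico_succ_top (by omega)]
    have h1 : x ^ (a + n + 1) = x * x ^ (a + n) := by rw [pow_succ]; ring
    have h2 : 0 ≤ x ^ (a + n) := by positivity
    rw [h1]
    nlinarith

theorem geo2_DG (x : ℝ) (hx : 0 ≤ x) (hx2 : x ≤ 1 / 2) (a Y : ℕ) :
    ∑ k ∈ Icc a Y, x ^ k ≤ 2 * x ^ a := by
  by_cases h : a ≤ Y + 1
  · have h1 : Icc a Y = Ico a (a + (Y + 1 - a)) := by
      ext k
      simp only [mem_Icc, mem_Ico]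
      omega
    rw [h1]
    have h2 := geo_DG x hx hx2 a (Y + 1 - a)
    have h3 : 0 ≤ x ^ (a + (Y + 1 - a)) := by positivity
    linarith
  · have h1 : Icc a Y = ∅ := by
      apply Finset.Icc_eq_empty
      omega
    rw [h1]
    simp
    positivity

/-- the sum over the integers -/
theorem logsum_DG : ∀ m : ℕ, ∑ n ∈ range m, Real.log ((n : ℝ) + 2) / ((n : ℝ) + 2) ^ 2 ≤
    4 - 4 / √((m : ℝ) + 1) := by
  intro m
  induction m with
  | zero => simp
  | succ m ih =>
    rw [Finset.sum_range_succ]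
    set s := √((m : ℝ) + 1) with hs
    set t := √((m : ℝ) + 2) with ht
    have hs2 : s ^ 2 = (m : ℝ) + 1 := Real.sq_sqrt (by positivity)
    have ht2 : t ^ 2 = (m : ℝ) + 2 := Real.sq_sqrt (by positivity)
    have hs0 : 0 < s := Real.sqrt_pos.2 (by positivity)
    have ht0 : 0 < t := Real.sqrt_pos.2 (by positivity)
    have hst : s ≤ t := Real.sqrt_le_sqrt (by linarith)
    have hcast : √((((m + 1 : ℕ) : ℝ)) + 1) = t := by
      rw [ht]
      congr 1
      push_cast
      ring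
    rw [hcast]
    have hlog : Real.log ((m : ℝ) + 2) ≤ 2 * t := by
      rw [← ht2, Real.log_pow]
      have := Real.log_le_sub_one_of_pos ht0
      push_cast
      linarith
    have h1 : Real.log ((m : ℝ) + 2) / ((m : ℝ) + 2) ^ 2 ≤ 2 / t ^ 3 := by
      rw [← ht2] at hlog ⊢
      rw [div_le_div_iff₀ (by positivity) (by positivity)]
      nlinarith [pow_pos ht0 3]
    have h2 : 2 / t ^ 3 ≤ 4 / s - 4 / t := by
      have h3 : (t - s) * (t + s) = 1 := by nlinarith
      have h4 : 4 / s - 4 / t = 4 / (s * t * (t + s)) := by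
        have : 4 / s - 4 / t = 4 * ((t - s) * (t + s)) / (s * t * (t + s)) := by
          field_simp
        rw [this, h3, mul_one]
      rw [h4, div_le_div_iff₀ (by positivity) (by positivity)]
      have h5 : s * t * (t + s) ≤ t * t * (t + t) := by
        apply mul_le_mul
        · exact mul_le_mul_of_nonneg_right hst ht0.le
        · linarith
        · positivity
        · positivity
      nlinarith
    linarith

section

variable (K : Type) [Field K] [NumberField K]

/-- the rational prime below -/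
def bb_DG (P : Ideal (𝓞 K)) : ℕ := Ideal.absNorm (Ideal.under ℤ P)

theorem bb_prime_DG (P : Ideal (𝓞 K)) (h1 : P.IsPrime) (h2 : P ≠ ⊥) : (bb_DG K P).Prime := by
  have : NeZero P := ⟨h2⟩
  exact Nat.absNorm_under_prime P

theorem norm_DG (P : Ideal (𝓞 K)) (h1 : P.IsPrime) (h2 : P ≠ ⊥) :
    ∃ f : ℕ, 1 ≤ f ∧ Ideal.absNorm P = bb_DG K P ^ f := by
  have hp := bb_prime_DG K P h1 h2
  have : P.LiesOver (Ideal.span {((bb_DG K P : ℕ) : ℤ)}) := Int.liesOver_span_absNorm P
  have hfact : Fact (bb_DG K P).Prime := ⟨hp⟩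
  have hmax : (Ideal.span {((bb_DG K P : ℕ) : ℤ)}).IsMaximal :=
    Int.ideal_span_isMaximal_of_prime (bb_DG K P)
  refine ⟨(Ideal.span {((bb_DG K P : ℕ) : ℤ)}).inertiaDeg' P, ?_, ?_⟩
  · exact Ideal.inertiaDeg'_pos _ P
  · exact Ideal.absNorm_eq_pow_inertiaDeg' P hp

theorem mem_pI_DG (Y : ℕ) (P : Ideal (𝓞 K)) :
    P ∈ pI K Y ↔ Ideal.absNorm P ≤ Y ∧ P.IsPrime ∧ P ≠ ⊥ := by
  classical
  unfold pI
  rw [Finset.mem_filter, Set.Finite.mem_toFinset]
  rfl

/-- one prime ideal -/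
theorem one_DG (Y : ℕ) (P : Ideal (𝓞 K)) (h1 : P.IsPrime) (h2 : P ≠ ⊥) :
    ∑ k ∈ Icc 1 Y, Real.log (nm K P) / nm K P ^ k ≤
      (if (Ideal.absNorm P).Prime then Real.log (nm K P) / nm K P else 0)
        + 4 * (Real.log (bb_DG K P) / (bb_DG K P : ℝ) ^ 2) := by
  classical
  obtain ⟨f, hf, hnorm⟩ := norm_DG K P h1 h2
  have hp := bb_prime_DG K P h1 h2
  set p := bb_DG K P with hpdef
  have hp2 : (2 : ℝ) ≤ p := by exact_mod_cast hp.two_le
  have hlp : 0 ≤ Real.log p := Real.log_nonneg (by linarith)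
  have hnm : nm K P = (p : ℝ) ^ f := by
    unfold nm
    rw [hnorm]
    push_cast
    rfl
  have hq2 : (2 : ℝ) ≤ nm K P := by
    rw [hnm]
    calc (2 : ℝ) ≤ p := hp2
      _ = (p : ℝ) ^ 1 := (pow_one _).symm
      _ ≤ (p : ℝ) ^ f := pow_le_pow_right₀ (by linarith) hf
  have hq0 : 0 < nm K P := by linarith
  have hlq : 0 ≤ Real.log (nm K P) := Real.log_nonneg (by linarith)
  have hx0 : 0 ≤ (nm K P)⁻¹ := by positivity
  have hx2 : (nm K P)⁻¹ ≤ 1 / 2 := by
    rw [one_div]
    exact inv_anti₀ (by norm_num) hq2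
  have hterm : ∀ k, Real.log (nm K P) / nm K P ^ k = Real.log (nm K P) * (nm K P)⁻¹ ^ k := by
    intro k
    rw [inv_pow, div_eq_mul_inv]
  simp_rw [hterm]
  rw [← Finset.mul_sum]
  by_cases hf1 : f = 1
  · have hpr : (Ideal.absNorm P).Prime := by
      rw [hnorm, hf1, pow_one]
      exact hp
    rw [if_pos hpr]
    have hq : nm K P = p := by rw [hnm, hf1, pow_one]
    have hsum : ∑ k ∈ Icc 1 Y, (nm K P)⁻¹ ^ k ≤ (nm K P)⁻¹ + 2 * (nm K P)⁻¹ ^ 2 := by
      have hsub : Icc 1 Y ⊆ insert 1 (Icc 2 Y) := by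
        intro k hk
        simp only [mem_Icc, mem_insert] at hk ⊢
        omega
      have h3 := Finset.sum_le_sum_of_subset_of_nonneg (f := fun k => (nm K P)⁻¹ ^ k) hsub
        (fun k _ _ => by positivity)
      rw [Finset.sum_insert (by simp)] at h3
      have h4 := geo2_DG (nm K P)⁻¹ hx0 hx2 2 Y
      rw [pow_one] at h3
      linarith
    have h5 := mul_le_mul_of_nonneg_left hsum hlq
    refine h5.trans ?_
    rw [hq]
    have h6 : 0 ≤ Real.log p / (p : ℝ) ^ 2 := by positivity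
    have h7 : Real.log p * ((p : ℝ)⁻¹ + 2 * (p : ℝ)⁻¹ ^ 2) =
        Real.log p / p + 2 * (Real.log p / (p : ℝ) ^ 2) := by
      rw [inv_pow, div_eq_mul_inv, div_eq_mul_inv]
      ring
    rw [h7]
    linarith
  · have hf2 : 2 ≤ f := by omega
    have hnpr : ¬ (Ideal.absNorm P).Prime := by
      rw [hnorm]
      exact Nat.Prime.not_prime_pow hf2
    rw [if_neg hnpr, zero_add]
    have h3 := mul_le_mul_of_nonneg_left (geo2_DG (nm K P)⁻¹ hx0 hx2 1 Y) hlq
    refine h3.trans ?_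
    rw [pow_one, hnm, Real.log_pow]
    obtain ⟨g, rfl⟩ : ∃ g, f = g + 2 := ⟨f - 2, by omega⟩
    have h4 : ((g + 2 : ℕ) : ℝ) ≤ 2 * (p : ℝ) ^ g := by
      have h5 : g + 1 < 2 ^ (g + 1) := Nat.lt_two_pow_self
      have h6 : g + 2 ≤ 2 * 2 ^ g := by
        rw [pow_succ] at h5
        omega
      have h7 : ((g + 2 : ℕ) : ℝ) ≤ 2 * (2 : ℝ) ^ g := by exact_mod_cast h6
      have h8 : (2 : ℝ) ^ g ≤ (p : ℝ) ^ g := pow_le_pow_left₀ (by norm_num) hp2 g
      linarith
    have hp0 : (0 : ℝ) < p := by linarith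
    have h9 : (((g + 2 : ℕ) : ℝ) * Real.log p) * (2 * ((p : ℝ) ^ (g + 2))⁻¹) =
        (2 * Real.log p / (p : ℝ) ^ (g + 2)) * ((g + 2 : ℕ) : ℝ) := by
      rw [div_eq_mul_inv]
      ring
    rw [h9]
    have h10 : 4 * (Real.log p / (p : ℝ) ^ 2) =
        (2 * Real.log p / (p : ℝ) ^ (g + 2)) * (2 * (p : ℝ) ^ g) := by
      rw [pow_add]
      field_simp
      ring
    rw [h10]
    exact mul_le_mul_of_nonneg_left h4 (by positivity)

/-- the number of primes above `p` -/
theorem fib_DG (Y p : ℕ) (hp : p.Prime) :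
    (((pI K Y).filter (fun P => bb_DG K P = p)).card : ℝ) ≤ dg K := by
  classical
  have hp0 : (Ideal.span {(p : ℤ)}) ≠ ⊥ := by
    rw [Ne, Ideal.span_singleton_eq_bot]
    exact_mod_cast hp.ne_zero
  have hfact : Fact p.Prime := ⟨hp⟩
  have hmax : (Ideal.span {(p : ℤ)}).IsMaximal :=
    Int.ideal_span_isMaximal_of_prime p
  have h1 : (pI K Y).filter (fun P => bb_DG K P = p) ⊆
      IsDedekindDomain.primesOverFinset (Ideal.span {(p : ℤ)}) (𝓞 K) := by
    intro P hP
    rw [Finset.mem_filter, mem_pI_DG] at hP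
    rw [IsDedekindDomain.mem_primesOverFinset_iff hp0]
    refine ⟨hP.1.2.1, ?_⟩
    have : P.LiesOver (Ideal.span {((bb_DG K P : ℕ) : ℤ)}) := Int.liesOver_span_absNorm P
    rw [hP.2] at this
    exact this
  have h2 := Finset.card_le_card h1
  have h3 := Ideal.card_primesOverFinset_le_finrank (S := 𝓞 K) ℚ K hp0
  unfold dg
  exact_mod_cast h2.trans h3

end

theorem hDG : StDG := by
  classical
  intro K _ _ Y
  have hnm0 : ∀ P : Ideal (𝓞 K), P ∈ pI K Y → 1 ≤ nm K P := by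
    intro P hP
    rw [mem_pI_DG] at hP
    unfold nm
    have : Ideal.absNorm P ≠ 0 := by
      rw [Ne, Ideal.absNorm_eq_zero_iff]
      exact hP.2.2
    exact_mod_cast Nat.one_le_iff_ne_zero.2 this
  -- drop the condition on the size
  have h1 : Sst K Y ≤ ∑ P ∈ pI K Y, ∑ k ∈ Icc 1 Y, Real.log (nm K P) / nm K P ^ k := by
    unfold Sst
    rw [← Finset.sum_product']
    refine Finset.sum_le_sum_of_subset_of_nonneg (Finset.filter_subset _ _) ?_
    intro v hv _
    rw [Finset.mem_product] at hv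
    have h2 := hnm0 v.1 hv.1
    have h3 : 0 ≤ Real.log (nm K v.1) := Real.log_nonneg h2
    positivity
  have h2 : ∑ P ∈ pI K Y, ∑ k ∈ Icc 1 Y, Real.log (nm K P) / nm K P ^ k ≤
      ∑ P ∈ pI K Y, ((if (Ideal.absNorm P).Prime then Real.log (nm K P) / nm K P else 0)
        + 4 * (Real.log (bb_DG K P) / (bb_DG K P : ℝ) ^ 2)) := by
    refine Finset.sum_le_sum ?_
    intro P hP
    rw [mem_pI_DG] at hP
    exact one_DG K Y P hP.2.1 hP.2.2
  rw [Finset.sum_add_distrib] at h2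
  have h3 : ∑ P ∈ pI K Y, (if (Ideal.absNorm P).Prime then Real.log (nm K P) / nm K P else 0)
      = Sd K Y := by
    unfold Sd
    rw [Finset.sum_filter]
  rw [h3] at h2
  have h4 : ∑ P ∈ pI K Y, 4 * (Real.log (bb_DG K P) / (bb_DG K P : ℝ) ^ 2) ≤
      ∑ p ∈ (range (Y + 1)).filter Nat.Prime, (dg K : ℝ) * (4 * (Real.log p / (p : ℝ) ^ 2)) := by
    have hmap : ∀ P ∈ pI K Y, bb_DG K P ∈ (range (Y + 1)).filter Nat.Prime := by
      intro P hP
      rw [mem_pI_DG] at hP
      rw [Finset.mem_filter, Finset.mem_range]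
      refine ⟨?_, bb_prime_DG K P hP.2.1 hP.2.2⟩
      have h5 : bb_DG K P ∣ Ideal.absNorm P := Int.absNorm_under_dvd_absNorm P
      have h6 : Ideal.absNorm P ≠ 0 := by
        rw [Ne, Ideal.absNorm_eq_zero_iff]
        exact hP.2.2
      have := Nat.le_of_dvd (Nat.pos_of_ne_zero h6) h5
      omega
    rw [← Finset.sum_fiberwise_of_maps_to hmap]
    refine Finset.sum_le_sum ?_
    intro p hp
    have hpp : p.Prime := (Finset.mem_filter.1 hp).2
    have h5 : ∑ P ∈ (pI K Y).filter (fun P => bb_DG K P = p),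
        4 * (Real.log (bb_DG K P) / (bb_DG K P : ℝ) ^ 2) =
        ∑ P ∈ (pI K Y).filter (fun P => bb_DG K P = p), 4 * (Real.log p / (p : ℝ) ^ 2) := by
      refine Finset.sum_congr rfl ?_
      intro P hP
      rw [(Finset.mem_filter.1 hP).2]
    rw [h5, Finset.sum_const, nsmul_eq_mul]
    have hp1 : (1 : ℝ) ≤ p := by exact_mod_cast hpp.one_le
    have h6 : 0 ≤ Real.log p := Real.log_nonneg hp1
    exact mul_le_mul_of_nonneg_right (fib_DG K Y p hpp) (by positivity)
  have h5 : ∑ p ∈ (range (Y + 1)).filter Nat.Prime, (dg K : ℝ) * (4 * (Real.log p / (p : ℝ) ^ 2))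
      ≤ (dg K : ℝ) * (4 * 4) := by
    rw [← Finset.mul_sum, ← Finset.mul_sum]
    refine mul_le_mul_of_nonneg_left ?_ (by positivity)
    refine mul_le_mul_of_nonneg_left ?_ (by norm_num)
    have hsub : (range (Y + 1)).filter Nat.Prime ⊆ (range (Y + 1)).image (fun n => n + 2) := by
      intro p hp
      rw [Finset.mem_filter, Finset.mem_range] at hp
      rw [Finset.mem_image]
      have := hp.2.two_le
      exact ⟨p - 2, by rw [Finset.mem_range]; omega, by omega⟩
    have h6 := Finset.sum_le_sum_of_subset_of_nonneg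
      (f := fun p : ℕ => Real.log (p : ℝ) / (p : ℝ) ^ 2) hsub (by
        intro p hp _
        rw [Finset.mem_image] at hp
        obtain ⟨n, _, rfl⟩ := hp
        have : 0 ≤ Real.log ((n + 2 : ℕ) : ℝ) := Real.log_nonneg (by push_cast; linarith [n.cast_nonneg (α := ℝ)])
        positivity)
    rw [Finset.sum_image (by intro a _ b _ h; exact Nat.add_right_cancel h)] at h6
    refine h6.trans ?_
    have h7 := logsum_DG (Y + 1)
    have h8 : ∑ x ∈ range (Y + 1), Real.log ((x + 2 : ℕ) : ℝ) / ((x + 2 : ℕ) : ℝ) ^ 2 =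
        ∑ n ∈ range (Y + 1), Real.log ((n : ℝ) + 2) / ((n : ℝ) + 2) ^ 2 := by
      refine Finset.sum_congr rfl ?_
      intro n _
      push_cast
      rfl
    rw [h8]
    have h9 : 0 ≤ 4 / √(((Y + 1 : ℕ) : ℝ) + 1) := by positivity
    linarith
  have h6 : (0 : ℝ) ≤ dg K := by positivity
  linarith

end Pool.Agent.Helper57.UP
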